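import Pool.Agent.helper62.RP.Spec

/-!
# Row rp:SGE: surface groups of genus at least two embed into the surface group of genus two
-/

set_option autoImplicit false

namespace Pool.Agent.RP

/-- the commutator -/
def SGE_cm {H : Type} [Group H] (x y : H) : H := x * y * x⁻¹ * y⁻¹

/-- the generators `a_i` (`false`) and `b_i` (`true`) -/
def SGE_gen (g : ℕ) (i : Fin g) (s : Bool) : SurfGrp g := PresentedGroup.of (i, s)

theorem SGE_ofFn {H : Type} [Group H] (f : ℕ → H) (n : ℕ) :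
    (List.ofFn fun i : Fin n => f i).prod = ((List.range n).map f).prod := by
  induction n with
  | zero => simp
  | succ n ih =>
    rw [List.ofFn_succ', List.concat_eq_append, List.prod_append, List.range_succ, List.map_append,
      List.prod_append]
    simp only [Fin.val_castSucc, Fin.val_last, List.map_cons, List.map_nil]
    rw [ih]

theorem SGE_rel (g : ℕ) :
    (List.ofFn fun i : Fin g => SGE_cm (SGE_gen g i false) (SGE_gen g i true)).prod = 1 := by
  have h1 : PresentedGroup.mk {surfRel g} (surfRel g) = 1 :=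
    PresentedGroup.one_of_mem (Set.mem_singleton _)
  rw [surfRel, map_list_prod, List.map_ofFn] at h1
  have h2 : (fun i : Fin g => SGE_cm (SGE_gen g i false) (SGE_gen g i true)) =
      (PresentedGroup.mk {surfRel g}) ∘ (fun i : Fin g =>
        FreeGroup.of (i, false) * FreeGroup.of (i, true) *
          (FreeGroup.of (i, false))⁻¹ * (FreeGroup.of (i, true))⁻¹) := by
    funext i
    simp only [Function.comp_apply, map_mul, map_inv]
    rfl
  rw [h2]
  exact h1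

theorem SGE_lift {H : Type} [Group H] (g : ℕ) (x y : ℕ → H)
    (h : ((List.range g).map fun k => SGE_cm (x k) (y k)).prod = 1) :
    ∃ φ : SurfGrp g →* H, ∀ i : Fin g, φ (SGE_gen g i false) = x i ∧ φ (SGE_gen g i true) = y i := by
  obtain ⟨f, hf⟩ : ∃ f : Fin g × Bool → H, f = fun p => if p.2 then y p.1 else x p.1 := ⟨_, rfl⟩
  have h1 : ∀ r ∈ ({surfRel g} : Set (FreeGroup (Fin g × Bool))), FreeGroup.lift f r = 1 := by
    intro r hr
    rw [Set.mem_singleton_iff.1 hr, surfRel, map_list_prod, List.map_ofFn]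
    have h2 : (⇑(FreeGroup.lift f)) ∘ (fun i : Fin g =>
        FreeGroup.of (i, false) * FreeGroup.of (i, true) *
          (FreeGroup.of (i, false))⁻¹ * (FreeGroup.of (i, true))⁻¹) =
        fun i : Fin g => SGE_cm (x i) (y i) := by
      funext i
      simp only [Function.comp_apply, map_mul, map_inv, FreeGroup.lift_apply_of, hf]
      rfl
    rw [h2, SGE_ofFn fun k => SGE_cm (x k) (y k)]
    exact h
  refine ⟨PresentedGroup.toGroup h1, fun i => ⟨?_, ?_⟩⟩
  · rw [SGE_gen, PresentedGroup.toGroup.of, hf]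
    simp
  · rw [SGE_gen, PresentedGroup.toGroup.of, hf]
    simp

section act

variable {m : ℕ} {Γ : Type} [Group Γ]

/-- `(0, γ) ↦ (m, a₀ γ)`, `(i + 1, γ) ↦ (i, γ)` -/
def SGE_A (m : ℕ) (a₀ : Γ) : Equiv.Perm (Fin (m + 1) × Γ) where
  toFun x := Fin.cases (motive := fun _ => Fin (m + 1) × Γ) (Fin.last m, a₀ * x.2)
    (fun i => (i.castSucc, x.2)) x.1
  invFun x := Fin.lastCases (motive := fun _ => Fin (m + 1) × Γ) (0, a₀⁻¹ * x.2)
    (fun i => (i.succ, x.2)) x.1
  left_inv := by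
    rintro ⟨j, γ⟩
    induction j using Fin.cases with
    | zero => simp
    | succ i => simp
  right_inv := by
    rintro ⟨j, γ⟩
    induction j using Fin.lastCases with
    | last => simp
    | cast i => simp

/-- `(j, γ) ↦ (j, s j γ)` -/
def SGE_S (m : ℕ) (s : Fin (m + 1) → Γ) : Equiv.Perm (Fin (m + 1) × Γ) where
  toFun x := (x.1, s x.1 * x.2)
  invFun x := (x.1, (s x.1)⁻¹ * x.2)
  left_inv := by
    rintro ⟨j, γ⟩
    simp
  right_inv := by
    rintro ⟨j, γ⟩
    simp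

theorem SGE_A_zero (a₀ γ : Γ) : SGE_A m a₀ (0, γ) = (Fin.last m, a₀ * γ) := rfl

theorem SGE_A_succ (a₀ γ : Γ) (i : Fin m) : SGE_A m a₀ (i.succ, γ) = (i.castSucc, γ) := rfl

theorem SGE_A_inv_last (a₀ γ : Γ) : (SGE_A m a₀)⁻¹ (Fin.last m, γ) = (0, a₀⁻¹ * γ) := by
  rw [Equiv.Perm.inv_eq_iff_eq, SGE_A_zero, mul_inv_cancel_left]

theorem SGE_A_inv_cast (a₀ γ : Γ) (i : Fin m) :
    (SGE_A m a₀)⁻¹ (i.castSucc, γ) = (i.succ, γ) := by
  rw [Equiv.Perm.inv_eq_iff_eq, SGE_A_succ]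

theorem SGE_S_apply (s : Fin (m + 1) → Γ) (j : Fin (m + 1)) (γ : Γ) :
    SGE_S m s (j, γ) = (j, s j * γ) := rfl

theorem SGE_S_inv (s : Fin (m + 1) → Γ) (j : Fin (m + 1)) (γ : Γ) :
    (SGE_S m s)⁻¹ (j, γ) = (j, (s j)⁻¹ * γ) := rfl

theorem SGE_down (a₀ : Γ) (k : ℕ) : ∀ (hk : k < m + 1) (γ : Γ),
    (SGE_A m a₀ ^ k) (⟨k, hk⟩, γ) = (0, γ) := by
  induction k with
  | zero => intro hk γ; rfl
  | succ k ih =>
    intro hk γ
    rw [pow_succ, Equiv.Perm.mul_apply]
    have h1 : SGE_A m a₀ (⟨k + 1, hk⟩, γ) = (⟨k, by omega⟩, γ) :=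
      SGE_A_succ a₀ γ ⟨k, by omega⟩
    rw [h1, ih]

end act

/-- Row SGE. -/
theorem SGE : SGE_stmt := by
  intro g hg
  obtain ⟨m, rfl⟩ : ∃ m, g = m + 2 := ⟨g - 2, by omega⟩
  -- the map to genus two
  obtain ⟨a, ha⟩ : ∃ a, a = SGE_gen 2 0 false := ⟨_, rfl⟩
  obtain ⟨b, hb⟩ : ∃ b, b = SGE_gen 2 0 true := ⟨_, rfl⟩
  obtain ⟨c, hc⟩ : ∃ c, c = SGE_gen 2 1 false := ⟨_, rfl⟩
  obtain ⟨d, hd⟩ : ∃ d, d = SGE_gen 2 1 true := ⟨_, rfl⟩
  have hrel : SGE_cm a b * SGE_cm c d = 1 := by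
    have h1 := SGE_rel 2
    rw [List.ofFn_succ, List.ofFn_succ, List.ofFn_zero, List.prod_cons, List.prod_cons,
      List.prod_nil, mul_one] at h1
    rw [ha, hb, hc, hd]
    exact h1
  have hind : ∀ k : ℕ, SGE_cm (a ^ k) b *
      ((List.range k).map fun i => SGE_cm (a ^ i * c * (a ^ i)⁻¹) (a ^ i * d * (a ^ i)⁻¹)).prod = 1 := by
    intro k
    induction k with
    | zero => simp [SGE_cm]
    | succ k ih =>
      rw [List.range_succ, List.map_append, List.prod_append]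
      simp only [List.map_cons, List.map_nil, List.prod_cons, List.prod_nil, mul_one]
      have h1 : SGE_cm (a ^ (k + 1)) b = a ^ k * SGE_cm a b * (a ^ k)⁻¹ * SGE_cm (a ^ k) b := by
        simp only [SGE_cm, pow_succ]
        group
      have h2 : SGE_cm (a ^ k * c * (a ^ k)⁻¹) (a ^ k * d * (a ^ k)⁻¹) =
          a ^ k * SGE_cm c d * (a ^ k)⁻¹ := by
        simp only [SGE_cm]
        group
      rw [h1, h2]
      calc a ^ k * SGE_cm a b * (a ^ k)⁻¹ * SGE_cm (a ^ k) b *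
            (((List.range k).map fun i =>
              SGE_cm (a ^ i * c * (a ^ i)⁻¹) (a ^ i * d * (a ^ i)⁻¹)).prod *
              (a ^ k * SGE_cm c d * (a ^ k)⁻¹))
          = a ^ k * SGE_cm a b * (a ^ k)⁻¹ * (SGE_cm (a ^ k) b *
            ((List.range k).map fun i =>
              SGE_cm (a ^ i * c * (a ^ i)⁻¹) (a ^ i * d * (a ^ i)⁻¹)).prod) *
              (a ^ k * SGE_cm c d * (a ^ k)⁻¹) := by group
        _ = a ^ k * (SGE_cm a b * SGE_cm c d) * (a ^ k)⁻¹ := by rw [ih]; group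
        _ = 1 := by rw [hrel]; group
  obtain ⟨Θ, hΘ⟩ := SGE_lift (m + 2)
    (fun k => if k = 0 then a ^ (m + 1) else a ^ (k - 1) * c * (a ^ (k - 1))⁻¹)
    (fun k => if k = 0 then b else a ^ (k - 1) * d * (a ^ (k - 1))⁻¹) (by
      rw [List.range_succ_eq_map, List.map_cons, List.prod_cons, List.map_map]
      exact hind (m + 1))
  refine ⟨Θ, ?_⟩
  have hΘ0 : Θ (SGE_gen (m + 2) 0 false) = a ^ (m + 1) := (hΘ 0).1
  have hΘ0' : Θ (SGE_gen (m + 2) 0 true) = b := (hΘ 0).2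
  have hΘs : ∀ i : Fin (m + 1), Θ (SGE_gen (m + 2) i.succ false) =
      a ^ (i : ℕ) * c * (a ^ (i : ℕ))⁻¹ := fun i => (hΘ i.succ).1
  have hΘs' : ∀ i : Fin (m + 1), Θ (SGE_gen (m + 2) i.succ true) =
      a ^ (i : ℕ) * d * (a ^ (i : ℕ))⁻¹ := fun i => (hΘ i.succ).2
  -- the action
  obtain ⟨a₀, ha₀⟩ : ∃ a₀, a₀ = SGE_gen (m + 2) 0 false := ⟨_, rfl⟩
  obtain ⟨b₀, hb₀⟩ : ∃ b₀, b₀ = SGE_gen (m + 2) 0 true := ⟨_, rfl⟩
  obtain ⟨u, hu⟩ : ∃ u : ℕ → SurfGrp (m + 2), ∀ k, u k = if h : k < m + 1 then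
      SGE_cm (SGE_gen (m + 2) (Fin.succ ⟨k, h⟩) false) (SGE_gen (m + 2) (Fin.succ ⟨k, h⟩) true)
      else 1 := ⟨_, fun _ => rfl⟩
  obtain ⟨PU, hPU⟩ : ∃ PU : ℕ → SurfGrp (m + 2), ∀ k, PU k = ((List.range k).map u).prod :=
    ⟨_, fun _ => rfl⟩
  have hPU0 : PU 0 = 1 := by rw [hPU]; simp
  have hPUs : ∀ k, PU (k + 1) = PU k * u k := by
    intro k
    rw [hPU, hPU, List.range_succ, List.map_append, List.prod_append]
    simp
  have hu' : ∀ i : Fin (m + 1), u i = SGE_cm (SGE_gen (m + 2) i.succ false)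
      (SGE_gen (m + 2) i.succ true) := by
    intro i
    rw [hu, dif_pos i.2]
  have hrelG : SGE_cm a₀ b₀ * PU (m + 1) = 1 := by
    have h1 := SGE_rel (m + 2)
    rw [List.ofFn_succ, List.prod_cons] at h1
    have h2 : (fun i : Fin (m + 1) => SGE_cm (SGE_gen (m + 2) i.succ false)
        (SGE_gen (m + 2) i.succ true)) = fun i : Fin (m + 1) => u i := by
      funext i
      rw [hu']
    rw [h2, SGE_ofFn u, ← hPU] at h1
    rw [ha₀, hb₀]
    exact h1
  obtain ⟨β, hβ⟩ : ∃ β : Fin (m + 1) → SurfGrp (m + 2), ∀ j, β j = (PU j)⁻¹ * b₀ :=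
    ⟨_, fun _ => rfl⟩
  obtain ⟨A, hA⟩ : ∃ A, A = SGE_A m a₀ := ⟨_, rfl⟩
  obtain ⟨B, hB⟩ : ∃ B, B = SGE_S m β := ⟨_, rfl⟩
  obtain ⟨C, hC⟩ : ∃ C, C = SGE_S m fun i => SGE_gen (m + 2) i.succ false := ⟨_, rfl⟩
  obtain ⟨D, hD⟩ : ∃ D, D = SGE_S m fun i => SGE_gen (m + 2) i.succ true := ⟨_, rfl⟩
  have hCD : ∀ j γ, SGE_cm C D (j, γ) = (j, u j * γ) := by
    intro j γ
    rw [SGE_cm, Equiv.Perm.mul_apply, Equiv.Perm.mul_apply, Equiv.Perm.mul_apply, hC, hD,
      SGE_S_inv, SGE_S_inv, SGE_S_apply, SGE_S_apply, hu', SGE_cm]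
    simp only [mul_assoc]
  have hAB : SGE_cm A B * SGE_cm C D = 1 := by
    ext1 ⟨j, γ⟩
    rw [Equiv.Perm.mul_apply, hCD, SGE_cm, Equiv.Perm.mul_apply, Equiv.Perm.mul_apply,
      Equiv.Perm.mul_apply, hB, SGE_S_inv, hA, Equiv.Perm.one_apply]
    induction j using Fin.lastCases with
    | last =>
      rw [SGE_A_inv_last, SGE_S_apply, SGE_A_zero, hβ, hβ]
      refine Prod.ext rfl ?_
      have h1 : a₀ * ((PU (0 : Fin (m + 1)))⁻¹ * b₀ * (a₀⁻¹ * (((PU (Fin.last m))⁻¹ * b₀)⁻¹ *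
          (u (Fin.last m) * γ)))) = SGE_cm a₀ b₀ * PU (m + 1) * γ := by
        rw [Fin.val_zero, hPU0, Fin.val_last, hPUs, SGE_cm]
        group
      simp only
      rw [h1, hrelG, one_mul]
    | cast i =>
      rw [SGE_A_inv_cast, SGE_S_apply, SGE_A_succ, hβ, hβ]
      refine Prod.ext rfl ?_
      simp only [Fin.val_succ, Fin.val_castSucc, hPUs]
      group
  obtain ⟨Ψ, hΨ⟩ := SGE_lift 2 (fun k => if k = 0 then A else C) (fun k => if k = 0 then B else D) (by
    have h1 : List.range 2 = [0, 1] := rfl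
    rw [h1]
    simp only [List.map_cons, List.map_nil, List.prod_cons, List.prod_nil, mul_one]
    exact hAB)
  have hΨa : Ψ a = A := by rw [ha]; exact (hΨ 0).1
  have hΨb : Ψ b = B := by rw [hb]; exact (hΨ 0).2
  have hΨc : Ψ c = C := by rw [hc]; exact (hΨ 1).1
  have hΨd : Ψ d = D := by rw [hd]; exact (hΨ 1).2
  have hdown : ∀ (i : Fin (m + 1)) (γ : SurfGrp (m + 2)), (A ^ (i : ℕ)) (i, γ) = (0, γ) := by
    intro i γ
    rw [hA]
    exact SGE_down a₀ i.1 i.2 γ
  have hup : ∀ (i : Fin (m + 1)) (γ : SurfGrp (m + 2)), (A ^ (i : ℕ))⁻¹ (0, γ) = (i, γ) := by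
    intro i γ
    rw [Equiv.Perm.inv_eq_iff_eq, hdown]
  have key : ∀ x : SurfGrp (m + 2), ∀ γ, Ψ (Θ x) (0, γ) = (0, x * γ) := by
    intro x
    have hx : x ∈ Subgroup.closure (Set.range (PresentedGroup.of (rels := {surfRel (m + 2)}))) := by
      rw [PresentedGroup.closure_range_of]
      exact Subgroup.mem_top x
    induction hx using Subgroup.closure_induction with
    | mem x hx =>
      obtain ⟨⟨i, s⟩, rfl⟩ := hx
      intro γ
      cases s with
      | false =>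
        induction i using Fin.cases with
        | zero =>
          have h1 : Θ (PresentedGroup.of (0, false)) = a ^ (m + 1) := hΘ0
          rw [h1, map_pow, hΨa, pow_succ, Equiv.Perm.mul_apply]
          have h2 : A (0, γ) = (Fin.last m, a₀ * γ) := by rw [hA, SGE_A_zero]
          rw [h2]
          have h3 := hdown (Fin.last m) (a₀ * γ)
          rw [Fin.val_last] at h3
          rw [h3, ha₀]
          rfl
        | succ i =>
          have h1 : Θ (PresentedGroup.of (i.succ, false)) = a ^ (i : ℕ) * c * (a ^ (i : ℕ))⁻¹ :=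
            hΘs i
          rw [h1, map_mul, map_mul, map_inv, map_pow, hΨa, hΨc, Equiv.Perm.mul_apply,
            Equiv.Perm.mul_apply, hup, hC, SGE_S_apply, hdown]
          rfl
      | true =>
        induction i using Fin.cases with
        | zero =>
          have h1 : Θ (PresentedGroup.of (0, true)) = b := hΘ0'
          rw [h1, hΨb, hB, SGE_S_apply, hβ, Fin.val_zero, hPU0, inv_one, one_mul, hb₀]
          rfl
        | succ i =>
          have h1 : Θ (PresentedGroup.of (i.succ, true)) = a ^ (i : ℕ) * d * (a ^ (i : ℕ))⁻¹ :=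
            hΘs' i
          rw [h1, map_mul, map_mul, map_inv, map_pow, hΨa, hΨd, Equiv.Perm.mul_apply,
            Equiv.Perm.mul_apply, hup, hD, SGE_S_apply, hdown]
          rfl
    | one =>
      intro γ
      rw [map_one, map_one, Equiv.Perm.one_apply, one_mul]
    | mul x y _ _ hx hy =>
      intro γ
      rw [map_mul, map_mul, Equiv.Perm.mul_apply, hy, hx, mul_assoc]
    | inv x _ hx =>
      intro γ
      rw [map_inv, map_inv, Equiv.Perm.inv_eq_iff_eq, hx, mul_inv_cancel_left]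
  intro x y hxy
  have h1 := key x 1
  rw [hxy, key y 1] at h1
  have h2 := (Prod.ext_iff.1 h1).2
  simp only [mul_one] at h2
  exact h2.symm

end Pool.Agent.RP
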